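import Pool.Agent.H19.LSB.Stmts2

/-!
# Row CFB of the board `lsb`
-/

set_option autoImplicit false

namespace Pool.Agent.H19.LSB

theorem cfb : CFBStmt := by
  intro f hf hd y y' hy hy'
  have hs : {y : E2 | y ≠ 0} = {(0 : E2)}ᶜ := by
    ext z
    simp
  have ho : IsOpen {y : E2 | y ≠ 0} := by
    rw [hs]
    exact isOpen_compl_singleton
  have hr : 1 < Module.rank ℝ E2 := by
    rw [rank_eq_card_basis (EuclideanSpace.basisFun (Fin 2) ℝ).toBasis]
    simp
  have hc : IsPreconnected {y : E2 | y ≠ 0} := by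
    rw [hs]
    exact (isConnected_compl_singleton_of_one_lt_rank hr 0).isPreconnected
  exact ho.is_const_of_fderiv_eq_zero hc hf (fun z hz => hd z hz) hy hy'

end Pool.Agent.H19.LSB
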