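import Pool.Agent.H19.LSB.Stmts

/-!
# Row ELL of the board `lsb`
-/

set_option autoImplicit false

namespace Pool.Agent.H19.LSB

open Real

private theorem ell_q (A B C t : ℝ) :
    HasDerivAt (fun t => A * cos t ^ 2 + 2 * B * (cos t * sin t) + C * sin t ^ 2)
      (2 * (C - A) * (sin t * cos t) + 2 * B * (cos t ^ 2 - sin t ^ 2)) t := by
  have hc := Real.hasDerivAt_cos t
  have hs := Real.hasDerivAt_sin t
  have h := (((hc.pow 2).const_mul A).add ((hc.mul hs).const_mul (2 * B))).add
    ((hs.pow 2).const_mul C)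
  refine h.congr_deriv ?_
  push_cast
  ring

private theorem ell_q2 (A B C t : ℝ) :
    HasDerivAt (fun t => 2 * (C - A) * (sin t * cos t) + 2 * B * (cos t ^ 2 - sin t ^ 2))
      (2 * (C - A) * (cos t ^ 2 - sin t ^ 2) - 8 * B * (sin t * cos t)) t := by
  have hc := Real.hasDerivAt_cos t
  have hs := Real.hasDerivAt_sin t
  have h := ((hs.mul hc).const_mul (2 * (C - A))).add
    (((hc.pow 2).sub (hs.pow 2)).const_mul (2 * B))
  refine h.congr_deriv ?_
  push_cast
  ring

theorem ell : ELLStmt := by
  intro r A B C hr hpos hpos2 hq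
  set q : ℝ → ℝ := fun t => A * cos t ^ 2 + 2 * B * (cos t * sin t) + C * sin t ^ 2 with hqdef
  have hqr : ∀ t, r t ^ 2 = q t := hq
  have hr1 : ∀ t, HasDerivAt r (deriv r t) t := fun t =>
    ((hr.differentiable (by norm_num)) t).hasDerivAt
  have hr1' : ContDiff ℝ 1 (deriv r) := by
    have := (contDiff_succ_iff_deriv (n := 1) (f := r)).1 (by simpa [one_add_one_eq_two] using hr)
    exact this.2.2
  have hr2 : ∀ t, HasDerivAt (deriv r) (deriv (deriv r) t) t := fun t =>
    ((hr1'.differentiable (by norm_num)) t).hasDerivAt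
  -- `2 r r' = q'`
  have e1 : ∀ t, 2 * (r t * deriv r t) =
      2 * (C - A) * (sin t * cos t) + 2 * B * (cos t ^ 2 - sin t ^ 2) := by
    intro t
    have h1 : HasDerivAt (fun t => r t ^ 2) (2 * (r t * deriv r t)) t := by
      refine ((hr1 t).pow 2).congr_deriv ?_
      push_cast
      ring
    have h2 : (fun t => r t ^ 2) = q := funext hqr
    rw [h2] at h1
    exact h1.unique (ell_q A B C t)
  have e2 : ∀ t, 2 * (deriv r t ^ 2 + r t * deriv (deriv r) t) =
      2 * (C - A) * (cos t ^ 2 - sin t ^ 2) - 8 * B * (sin t * cos t) := by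
    intro t
    have h1 : HasDerivAt (fun t => 2 * (r t * deriv r t))
        (2 * (deriv r t ^ 2 + r t * deriv (deriv r) t)) t := by
      refine (((hr1 t).mul (hr2 t)).const_mul 2).congr_deriv ?_
      ring
    have h2 : (fun t => 2 * (r t * deriv r t)) =
        fun t => 2 * (C - A) * (sin t * cos t) + 2 * B * (cos t ^ 2 - sin t ^ 2) := funext e1
    rw [h2] at h1
    exact h1.unique (ell_q2 A B C t)
  set Dd : ℝ := A * C - B ^ 2 with hD
  have e3 : ∀ t, r t ^ 3 * (r t + deriv (deriv r) t) = Dd := by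
    intro t
    have hcs : sin t ^ 2 = 1 - cos t ^ 2 := by nlinarith [Real.sin_sq_add_cos_sq t]
    have h1 := e1 t
    have h2 := e2 t
    have h0 := hqr t
    simp only [hqdef] at h0
    have h3 : r t ^ 3 * (r t + deriv (deriv r) t) =
        (r t ^ 2) ^ 2 + r t ^ 2 * (deriv r t ^ 2 + r t * deriv (deriv r) t) -
          (r t * deriv r t) ^ 2 := by ring
    have h4 : r t * deriv r t = (C - A) * (sin t * cos t) + B * (cos t ^ 2 - sin t ^ 2) := by
      linarith
    have h5 : deriv r t ^ 2 + r t * deriv (deriv r) t =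
        (C - A) * (cos t ^ 2 - sin t ^ 2) - 4 * B * (sin t * cos t) := by linarith
    rw [h3, h4, h5, h0]
    have h6 : sin t ^ 4 = (1 - cos t ^ 2) ^ 2 := by
      rw [← hcs]; ring
    have h7 : sin t ^ 3 = sin t * (1 - cos t ^ 2) := by
      rw [← hcs]; ring
    ring_nf
    simp only [h6, hcs]
    simp only [hD]
    ring_nf
    try simp only [hcs]
    try ring
  have hA : A = r 0 ^ 2 := by
    have := hq 0
    simp at this
    exact this.symm
  have hApos : 0 < A := by rw [hA]; exact pow_pos (hpos 0) 2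
  have hDpos : 0 < Dd := by
    rw [← e3 0]
    exact mul_pos (pow_pos (hpos 0) 3) (hpos2 0)
  set S : ℝ := √Dd with hS
  have hS2 : S ^ 2 = Dd := Real.sq_sqrt hDpos.le
  have hSpos : 0 < S := Real.sqrt_pos.2 hDpos
  have hg : ∀ t, √((r t + deriv (deriv r) t) / r t) = S / q t := by
    intro t
    have h1 : (r t + deriv (deriv r) t) / r t = (S / q t) ^ 2 := by
      rw [div_pow, hS2, ← e3 t, ← hqr t]
      have := (hpos t).ne'
      field_simp
    rw [h1, Real.sqrt_sq]
    rw [← hqr t]
    exact div_nonneg hSpos.le (sq_nonneg _)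
  have hqpos : ∀ t, 0 < q t := fun t => by rw [← hqr t]; exact pow_pos (hpos t) 2
  have hqc : Continuous q := by
    simp only [hqdef]
    fun_prop
  have hgc : Continuous fun t => S / q t := continuous_const.div hqc fun t => (hqpos t).ne'
  have hgi : ∀ a b, IntervalIntegrable (fun t => S / q t) MeasureTheory.volume a b :=
    fun a b => hgc.intervalIntegrable a b
  have hint : (∫ t in (0 : ℝ)..(2 * π), √((r t + deriv (deriv r) t) / r t)) =
      ∫ t in (0 : ℝ)..(2 * π), S / q t := by
    simp only [hg]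
  rw [hint]
  have hper : Function.Periodic (fun t => S / q t) π := by
    intro t
    simp only [hqdef, Real.cos_add_pi, Real.sin_add_pi]
    congr 1
    ring
  have hdouble : (∫ t in (0 : ℝ)..(2 * π), S / q t) = 2 * ∫ t in (0 : ℝ)..π, S / q t := by
    have h1 := hper.intervalIntegral_add_eq π 0
    simp only [zero_add] at h1
    rw [← intervalIntegral.integral_add_adjacent_intervals (hgi 0 π) (hgi π (2 * π)),
      show (2 : ℝ) * π = π + π by ring, h1]
    ring
  rw [hdouble]
  set θ : ℝ → ℝ := fun x => ∫ t in (0 : ℝ)..x, S / q t with hθ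
  have hθd : ∀ t, HasDerivAt θ (S / q t) t := fun t =>
    intervalIntegral.integral_hasDerivAt_right (hgi 0 t)
      (hgc.stronglyMeasurableAtFilter _ _) hgc.continuousAt
  have hθpos : 0 < θ π := by
    simp only [hθ]
    exact intervalIntegral.intervalIntegral_pos_of_pos (hgi 0 π)
      (fun t => div_pos hSpos (hqpos t)) Real.pi_pos
  set P : ℝ → ℝ := fun t => ((A * cos t + B * sin t) * cos (θ t) + S * sin t * sin (θ t)) / r t
    with hP
  have hPd : ∀ t, HasDerivAt P 0 t := by
    intro t
    have hc := Real.hasDerivAt_cos t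
    have hs := Real.hasDerivAt_sin t
    have h1 : HasDerivAt (fun t => A * cos t + B * sin t) (-A * sin t + B * cos t) t := by
      refine ((hc.const_mul A).add (hs.const_mul B)).congr_deriv ?_
      ring
    have h2 : HasDerivAt (fun t => S * sin t) (S * cos t) t := hs.const_mul S
    have h3 := ((h1.mul (hθd t).cos).add (h2.mul (hθd t).sin)).div (hr1 t) (hpos t).ne'
    refine h3.congr_deriv ?_
    have hr0 := (hpos t).ne'
    rw [div_eq_zero_iff]
    left
    have hq1 : S / q t = S / r t ^ 2 := by rw [hqr t]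
    rw [hq1]
    have e4 : r t * deriv r t = (C - A) * (sin t * cos t) + B * (cos t ^ 2 - sin t ^ 2) := by
      linarith [e1 t]
    have e5 : r t ^ 2 = A * cos t ^ 2 + 2 * B * (cos t * sin t) + C * sin t ^ 2 := hq t
    have hcs : sin t ^ 2 = 1 - cos t ^ 2 := by nlinarith [Real.sin_sq_add_cos_sq t]
    have e6 : A * C = S ^ 2 + B ^ 2 := by rw [hS2, hD]; ring
    field_simp
    simp only [Pi.add_apply, Pi.mul_apply]
    linear_combination ((-(A * sin t) + B * cos t) * cos (θ t) + S * cos t * sin (θ t)) * e5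
      - ((A * cos t + B * sin t) * cos (θ t) + S * sin t * sin (θ t)) * e4
      - sin t * cos (θ t) * e6
      + (-(A * C - B ^ 2) * sin t * cos (θ t) + S * (A * cos t + B * sin t) * sin (θ t)) * hcs
  have hPc : P π = P 0 := by
    have hd : Differentiable ℝ P := fun t => (hPd t).differentiableAt
    exact is_const_of_deriv_eq_zero hd (fun t => (hPd t).deriv) π 0
  have hrpi : r π = r 0 := by
    have h1 : r π ^ 2 = r 0 ^ 2 := by
      rw [← hA, hq π]
      simp
    exact (pow_left_inj₀ (hpos π).le (hpos 0).le (by norm_num : (2 : ℕ) ≠ 0)).1 h1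
  have hcos : cos (θ π) = -1 := by
    have h0 : θ 0 = 0 := by simp [hθ]
    simp only [hP, h0, hrpi] at hPc
    simp at hPc
    have := (hpos 0).ne'
    field_simp at hPc
    nlinarith
  by_contra hlt
  push Not at hlt
  have h1 : θ π < π := by linarith
  have h2 : cos π < cos (θ π) := Real.cos_lt_cos_of_nonneg_of_le_pi hθpos.le le_rfl h1
  rw [Real.cos_pi, hcos] at h2
  exact lt_irrefl _ h2

end Pool.Agent.H19.LSB
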